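import Pool.Agent.TH455.Mad

set_option autoImplicit false

/-!
The threshold `b(4)` for the correspondence packing number is `18/5`.
-/

namespace Pool.Agent.Results.MP_6af60b_co.CorrFour

open Pool.Agent.TH455

/-- `b(4) = 18/5`: the largest real `a` such that every finite graph `G` with `mad(G) < a` has
correspondence packing number at most `4` is `18/5`. -/
theorem result :
    IsGreatest {a : ℝ | ∀ (V : Type) [Fintype V] (G : SimpleGraph V), MadLT G a →
      ∃ k : ℕ, 1 ≤ k ∧ k ≤ 4 ∧ CorrPackable G k} (18 / 5) := by
  constructor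
  · intro V _ G hG
    exact ⟨4, by norm_num, le_rfl, mcorr_of_sparse G (sparse_of_mad G hG)⟩
  · intro a ha
    by_contra hcon
    push Not at hcon
    obtain ⟨k, h1, h4, hk⟩ := ha (Fin 5) K5m.G (mad_of_count K5m.G K5m_count a hcon)
    rcases Nat.lt_or_ge k 4 with hlt | hge
    · exact K5m.no_small k h1 hlt hk
    · have : k = 4 := by omega
      subst this
      exact K5m.no4 hk

end Pool.Agent.Results.MP_6af60b_co.CorrFour
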